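import Mathlib
import Pool.Agent.MP_39a890_nt.kt.Top4

/-! The Hardy-Littlewood asymptotic for prime tuples, for almost all shifts in short windows. -/

namespace Pool.Agent.Results.MP_678834_nt.AlmostAllTuples

open Pool.Agent.MP_39a890_nt.KT

theorem result : ∀ (k : ℕ) (ε : ℝ), 0 < ε → ∀ A : ℕ, ∃ C x₀ : ℝ,
    ∀ (x : ℝ) (H : ℕ) (u : Fin k → ℤ), x₀ ≤ x → x ^ (1 / 9 + ε) ≤ (H : ℝ) →
    (∀ i, ((|u i| + H : ℤ) : ℝ) ≤ x ^ (1 - ε)) →
    ∃ Ex : Finset (Fin k → ℤ), (Ex.card : ℝ) ≤ C * (H : ℝ) ^ k / Real.log x ^ A ∧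
      ∀ d : Fin k → ℤ, (∀ i, u i < d i ∧ d i ≤ u i + H) → d ∉ Ex →
        |(((Finset.Icc 1 ⌊x⌋₊).filter fun p : ℕ =>
              p.Prime ∧ ∀ i, ((p : ℤ) - d i).toNat.Prime).card : ℝ) -
            singSeries (fun i => (1, -d i)) * ∫ t in (2 : ℝ)..x, 1 / Real.log t ^ (k + 1)| ≤
          x / Real.log x ^ A ∧
        ((∀ p : ℕ, p.Prime → rootCount (fun i => (1, -d i)) p < p) →
          |(((Finset.Icc 1 ⌊x⌋₊).filter fun p : ℕ =>
              p.Prime ∧ ∀ i, ((p : ℤ) - d i).toNat.Prime).card : ℝ) *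
            Real.log x ^ (k + 1) / (singSeries (fun i => (1, -d i)) * x) - 1| ≤ C / Real.log x) :=
  fin5

end Pool.Agent.Results.MP_678834_nt.AlmostAllTuples
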