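import Mathlib
import Pool.Agent.MP_678834_nt.gy.Top

/-! A lower bound for prime pairs on average over the difference. -/

open Finset Filter
open scoped ArithmeticFunction.vonMangoldt

namespace Pool.Agent.Results.MP_678834_nt.PairAverageLower

open Pool.Agent.MP_678834_nt

theorem result : ∀ ε : ℝ, 0 < ε → ∀ᶠ x : ℕ in atTop, ∀ h : ℕ, 1 ≤ h →
    (h : ℝ) ≤ (x : ℝ) ^ (1 / 3 - ε) →
      (h : ℝ) ^ 2 * (Chebyshev.psi (2 * x) - Chebyshev.psi x) ^ 2 / x -
          (1 / 2 + ε) * h * x * Real.log (x * (h : ℝ) ^ 3) ≤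
        2 * ∑ d ∈ Icc 1 h, ((h : ℝ) - d) * ∑ n ∈ Ioc x (2 * x), Λ n * Λ (n + d) := by
  intro ε hε
  filter_upwards [gy.final gy.main2 gy.cor (gy.thu gy.sw0) hε] with x hx h h1 h2
  rw [gy.psi_th]
  exact (hx h h1 h2).2

end Pool.Agent.Results.MP_678834_nt.PairAverageLower
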