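import Mathlib
import Pool.Agent.MP_678834_nt.Quant
import Pool.Agent.MP_39a890_nt.One
import Pool.Agent.MP_39a890_nt.KL
import Pool.Agent.MP_39a890_nt.Small
import Pool.Agent.MP_39a890_nt.Fin
import Pool.Agent.MP_39a890_nt.Page
import Pool.Agent.MP_39a890_nt.SW
import Pool.Agent.MP_39a890_nt.PNT

/-!
# One third of the even numbers are gaps between consecutive primes, quantitatively
-/

namespace Pool.Agent.Results.MP_678834_nt.PolignacThird

open Filter Pool.Agent.MP_39a890_nt Pool.Agent.MP_678834_nt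

theorem result : ∃ K : ℕ, ∀ q : ℕ, 0 < q → ∀ ε : ℝ, 0 < ε →
    ∀ᶠ T : ℕ in atTop, ∀ᶠ x : ℝ in atTop, (1 / 3 - ε) * (T : ℝ) ≤
      (Set.ncard {m : ℕ | 1 ≤ m ∧ m ≤ T ∧
        Set.Infinite {p : ℕ | p.Prime ∧ 2 * q * m < p ∧ (p - 2 * q * m).Prime ∧
          ∀ n : ℕ, p - 2 * q * m < n → n < p → ¬ n.Prime} ∧
        x / Real.log x ^ K ≤
          (Set.ncard {p : ℕ | (p : ℝ) ≤ x ∧ p.Prime ∧ 2 * q * m < p ∧ (p - 2 * q * m).Prime ∧
            ∀ n : ℕ, p - 2 * q * m < n → n < p → ¬ n.Prime} : ℝ)} : ℝ) := by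
  classical
  obtain ⟨K, h⟩ := sieveQ (klc (weil hyp)) (bvc ls sw page pnt) count one small
  refine ⟨K + 1, fun q hq ε hε => (thirdQ_of h q hq ε hε).mono fun T hT => ?_⟩
  have ht : Tendsto (fun x : ℝ => x / Real.log x ^ (K + 1)) atTop atTop :=
    ((Real.tendsto_exp_div_pow_atTop (K + 1)).comp Real.tendsto_log_atTop).congr'
      ((eventually_gt_atTop 0).mono fun x hx => by simp [Real.exp_log hx])
  filter_upwards [hT, eventually_ge_atTop 0, (eventually_all_finset (Finset.Icc 1 T)).2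
    fun m _ => ht.eventually_gt_atTop (Set.ncard {p | Gap (2 * q * m) p} : ℝ)] with x h1 h2 h3
  refine h1.trans (Nat.cast_le.2 ?_)
  rw [← Set.ncard_coe_finset]
  refine Set.ncard_le_ncard (fun m hm => ?_)
    ((Set.finite_Iic T).subset fun m hm => hm.2.1)
  obtain ⟨a1, a2⟩ := Finset.mem_filter.1 (Finset.mem_coe.1 hm)
  rw [← Set.ncard_coe_finset] at a2
  refine ⟨(Finset.mem_Icc.1 a1).1, (Finset.mem_Icc.1 a1).2, fun hf => ?_,
    a2.trans (Nat.cast_le.2 (Set.ncard_le_ncard (fun p hp => ?_)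
      ((Set.finite_Iic ⌊x⌋₊).subset fun p hp => Nat.le_floor hp.1)))⟩
  · refine absurd (a2.trans (Nat.cast_le.2 (Set.ncard_le_ncard (fun p hp => ?_)
      (hf.subset fun p hp => ⟨hp.2.2.1, hp.1, hp.2.1, hp.2.2.2⟩)))) (h3 m a1).not_ge
    exact (Finset.mem_filter.1 (Finset.mem_coe.1 hp)).2
  · obtain ⟨b1, b2⟩ := Finset.mem_filter.1 (Finset.mem_coe.1 hp)
    exact ⟨(Nat.le_floor_iff h2).1 (Finset.mem_Icc.1 b1).2, b2.2.2.1, b2.1, b2.2.1, b2.2.2.2⟩

end Pool.Agent.Results.MP_678834_nt.PolignacThird
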