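import Mathlib
import Pool.Agent.MP_39a890_nt.kt.Top3

/-! The Hardy-Littlewood asymptotic for prime values of the forms `q, a₁ q + b₁, …, a_k q + b_k`,
for almost all coefficients, of any height from a power of the logarithm on. -/

open Finset

namespace Pool.Agent.Results.MP_678834_nt.PolylogTuples

open Pool.Agent.MP_39a890_nt Pool.Agent.MP_39a890_nt.KT

theorem result : ∀ k K : ℕ, ∃ (B : ℕ) (C x₀ : ℝ), ∀ x A H : ℕ, x₀ ≤ (x : ℝ) →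
    Real.log x ^ B ≤ (A : ℝ) → (A : ℝ) * Real.log x ^ B ≤ H → (H : ℝ) * Real.log x ^ B ≤ x →
    ∃ Ex : Finset (Fin k → ℕ × ℤ), (Ex.card : ℝ) ≤ C * ((A : ℝ) * H) ^ k / Real.log x ^ K ∧
      ∀ t : Fin k → ℕ × ℤ, Function.Injective t →
        (∀ i, 1 ≤ (t i).1 ∧ (t i).1 ≤ A ∧ |(t i).2| ≤ H ∧ IsCoprime ((t i).1 : ℤ) (t i).2 ∧
          ∃ l : ℕ, l.Prime ∧ l ∣ (t i).1 ∧ Real.log x ^ B < l) →
        (∀ p : ℕ, p.Prime → rootCount t p < p) → t ∉ Ex →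
        ∀ y : ℕ, x / Real.log x ^ K ≤ (y : ℝ) → y ≤ x →
        |(((Finset.Icc 1 y).filter fun q : ℕ =>
            q.Prime ∧ ∀ i, (((t i).1 : ℤ) * q + (t i).2).toNat.Prime).card : ℝ) *
          (Real.log x * ∏ i, Real.log ((t i).1 * x)) / (singSeries t * y) - 1| ≤
          C * Real.log (Real.log x) / Real.log x := by
  intro k K
  obtain ⟨B, C, x₀, h⟩ := fnk3_bx k K
  refine ⟨B, C, x₀, fun x A H h1 h2 h3 h4 => ?_⟩
  obtain ⟨Ex, h5, h6⟩ := h x A H h1 h2 h3 h4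
  refine ⟨Ex, h5, fun t ht hi hp hE => h6 t ht (fun i => ?_) hp hE⟩
  obtain ⟨a1, a2, a3, a4, l, l1, l2, l3⟩ := hi i
  exact ⟨mem_filter.2 ⟨mem_Ioc.2 ⟨l1.one_lt.trans_le (Nat.le_of_dvd a1 l2), a2⟩, l,
    Nat.mem_primeFactors.2 ⟨l1, l2, by omega⟩, l3⟩, a3, a4⟩

end Pool.Agent.Results.MP_678834_nt.PolylogTuples
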